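import Mathlib
import Pool.Agent.V11123.Threshold

/-!
# The threshold number is not bounded by a function of the threshold dimension
-/

set_option autoImplicit false

namespace Pool.Agent.Results.MP_105209_co.NoFunction

open Pool.Agent.V11123.Threshold

/-- For every `C` there is a finite graph `G` with `t(G) = 2` and `Θ(G) > C`; so `Θ` is unbounded
over the graphs of threshold dimension two, and there is no function `f` with
`Θ(G) ≤ f (t(G))` for every finite graph `G`. -/
theorem result (C : ℕ) : ∃ (V : Type) (_ : Fintype V) (G : SimpleGraph V),
    thresholdDimension G = 2 ∧ C < thresholdNumber G := by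
  refine ⟨_, inferInstance, (ex (2 * (C + 2) + 2))ᶜ, ex_dim _ (ex_not (C + 2) 2 (by omega)), ?_⟩
  by_contra h
  push Not at h
  have h1 := (thresholdNumber_spec (ex (2 * (C + 2) + 2))ᶜ).compl
  rw [compl_compl] at h1
  exact ex_not (C + 2) _ (by omega) h1

end Pool.Agent.Results.MP_105209_co.NoFunction
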